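import Pool.Agent.Q62.CC.Stm

/-!
# Project CC, job CVG: convergence of the free flow
-/

set_option autoImplicit false
set_option linter.all false

open Set Filter Topology MeasureTheory
open scoped ENNReal ContDiff

namespace Pool.Agent.Q149.CC.Cvg

open Pool.Agent.Q62.CC

variable {m : ℝ → ℝ} {x₀ x₁ α β M c : ℝ}

theorem sub (h : Wt m x₀ x₁ α β M c) : Icc α β ⊆ Ioo x₀ x₁ := fun x hx =>
  ⟨lt_of_lt_of_le h.h0 hx.1, lt_of_le_of_lt hx.2 h.h1⟩

theorem cont_m (h : Wt m x₀ x₁ α β M c) : ContinuousOn m (Icc α β) :=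
  h.smooth.continuousOn.mono (sub h)

theorem cont_vdz {D K : ℝ} (hF : Fam m x₀ x₁ α β (vv m α β) (vd m α β) (kq m α β) D K) (z : ℝ) :
    ContinuousOn (Vdz m α β z) (Ioo x₀ x₁) := by
  unfold Vdz
  have hs : Summable fun k : ℕ => D * ((K * |z|) ^ k / (k.factorial : ℝ)) :=
    (Real.summable_pow_div_factorial (K * |z|)).mul_left D
  refine continuousOn_tsum (u := fun k : ℕ => D * ((K * |z|) ^ k / (k.factorial : ℝ))) ?_ hs ?_
  · intro k
    refine ContinuousOn.mul ?_ continuousOn_const
    intro x hx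
    cases k with
    | zero => exact (hF.dw0 x hx).continuousAt.continuousWithinAt
    | succ k => exact (hF.dw k x hx).continuousAt.continuousWithinAt
  · intro k x hx
    have h1 := hF.bw k x hx
    have h2 : (k.factorial : ℝ) ≤ ((2 * k).factorial : ℝ) := by
      exact_mod_cast Nat.factorial_le (by omega)
    have h3 : (0 : ℝ) < (k.factorial : ℝ) := by exact_mod_cast Nat.factorial_pos k
    have h4 : 0 ≤ D * K ^ k := mul_nonneg hF.hD (pow_nonneg hF.hK.le k)
    rw [Real.norm_eq_abs, abs_mul, abs_pow]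
    calc |vd m α β k x| * |z| ^ k ≤ (D * K ^ k / ((2 * k).factorial : ℝ)) * |z| ^ k :=
          mul_le_mul_of_nonneg_right h1 (pow_nonneg (abs_nonneg z) k)
      _ ≤ (D * K ^ k / (k.factorial : ℝ)) * |z| ^ k :=
          mul_le_mul_of_nonneg_right (div_le_div_of_nonneg_left h4 h3 h2)
            (pow_nonneg (abs_nonneg z) k)
      _ = D * ((K * |z|) ^ k / (k.factorial : ℝ)) := by
          rw [mul_pow]
          ring

theorem t_CVG (hp1 : S_ODE) (hp2 : S_FRJ) (hp3 : S_FAM) : S_CVG := by
  classical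
  intro m x₀ x₁ α β M c hW ι _ l e A hS f hf t ht
  have hsub := sub hW
  have hmc := cont_m hW
  have hab : α ≤ β := hW.hab.le
  -- the functions
  set φ : ι → ℝ → ℝ := fun i x => e i * Vz m α β (-l i) x with hφ
  have hφc : ∀ i, ContinuousOn (φ i) (Icc α β) := by
    intro i x hx
    have h1 := ((hp1 m x₀ x₁ α β M c hW (-l i)).2.2.2.2 x (hsub hx)).2.2.2.2.1
    exact (h1.continuousAt.const_mul (e i)).continuousWithinAt
  obtain ⟨D, K, hF⟩ := hp3 m x₀ x₁ α β M c hW
  have hdc : ∀ i, ContinuousOn (fun x => e i * Vdz m α β (-l i) x) (Icc α β) := fun i =>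
    continuousOn_const.mul ((cont_vdz hF (-l i)).mono hsub)
  -- the coefficients
  have hpars := hS.pars f hf
  set P : ℝ := √(∫ x in Icc α β, m x * f x ^ 2) with hP
  have hP0 : 0 ≤ P := Real.sqrt_nonneg _
  have hco : ∀ i, |co m α β l e f i| ≤ P := by
    intro i
    have h1 : (co m α β l e f i) ^ 2 ≤ ∫ x in Icc α β, m x * f x ^ 2 := by
      have h2 := hpars.summable.le_tsum i (fun j _ => sq_nonneg _)
      rw [hpars.tsum_eq] at h2
      exact h2
    exact Real.abs_le_sqrt h1
  -- the majorant
  have hA := hS.hA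
  have hg : ∀ i, |P * A * (1 + l i) ^ 2| ≤ P * A * (1 + l i) ^ 2 := by
    intro i
    rw [abs_of_nonneg (mul_nonneg (mul_nonneg hP0 hA) (sq_nonneg _))]
  obtain ⟨C, hC0, hC⟩ := (hp2 ι l (fun i => P * A * (1 + l i) ^ 2) (P * A) (mul_nonneg hP0 hA)
    hS.lpos hS.lsum hg).2.2 t ht
  have hsum := (hC 0 t le_rfl).1
  have hsumu : Summable fun i => P * A * (1 + l i) ^ 2 * Real.exp (-(l i * t)) := by
    refine hsum.congr fun i => ?_
    rw [pow_zero, mul_one, abs_of_nonneg (mul_nonneg (mul_nonneg hP0 hA) (sq_nonneg _))]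
  have hterm : ∀ i (y : ℝ), |y| ≤ A * (1 + l i) ^ 2 →
      |co m α β l e f i * Real.exp (-(l i * t)) * y| ≤
        P * A * (1 + l i) ^ 2 * Real.exp (-(l i * t)) := by
    intro i y hy
    rw [abs_mul, abs_mul, abs_of_pos (Real.exp_pos _)]
    have h1 := hco i
    have h2 : |co m α β l e f i| * Real.exp (-(l i * t)) ≤ P * Real.exp (-(l i * t)) :=
      mul_le_mul_of_nonneg_right h1 (Real.exp_pos _).le
    calc |co m α β l e f i| * Real.exp (-(l i * t)) * |y|
        ≤ P * Real.exp (-(l i * t)) * (A * (1 + l i) ^ 2) :=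
          mul_le_mul h2 hy (abs_nonneg _) (mul_nonneg hP0 (Real.exp_pos _).le)
      _ = _ := by ring
  have hbd : ∀ i, ∀ x ∈ Icc α β,
      |co m α β l e f i * Real.exp (-(l i * t)) * (e i * Vz m α β (-l i) x)| ≤
        P * A * (1 + l i) ^ 2 * Real.exp (-(l i * t)) ∧
      |co m α β l e f i * Real.exp (-(l i * t)) * (e i * Vdz m α β (-l i) x)| ≤
        P * A * (1 + l i) ^ 2 * Real.exp (-(l i * t)) := fun i x hx =>
    ⟨hterm i _ (hS.fbd i x hx), hterm i _ (hS.dbd i x hx)⟩
  refine ⟨⟨_, hsumu, hbd⟩, ?_, ?_, ?_⟩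
  · unfold VF
    refine continuousOn_tsum (u := fun i => P * A * (1 + l i) ^ 2 * Real.exp (-(l i * t))) ?_
      hsumu ?_
    · intro i
      exact continuousOn_const.mul (hφc i)
    · intro i x hx
      rw [Real.norm_eq_abs]
      exact (hbd i x hx).1
  · unfold WF
    refine continuousOn_tsum (u := fun i => P * A * (1 + l i) ^ 2 * Real.exp (-(l i * t))) ?_
      hsumu ?_
    · intro i
      exact continuousOn_const.mul (hdc i)
    · intro i x hx
      rw [Real.norm_eq_abs]
      exact (hbd i x hx).2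
  · intro i
    -- termwise integration
    let F : ι → ℝ → ℝ := fun j x =>
      m x * (co m α β l e f j * Real.exp (-(l j * t)) * φ j x * φ i x)
    have hFc : ∀ j, ContinuousOn (F j) (Icc α β) := fun j =>
      hmc.mul ((continuousOn_const.mul (hφc j)).mul (hφc i))
    have hFi : ∀ j, Integrable (F j) (volume.restrict (Icc α β)) := fun j =>
      (hFc j).integrableOn_compact isCompact_Icc
    have hM0 : 0 ≤ M := by
      have h1 : α ∈ Ioo x₀ x₁ := hsub ⟨le_rfl, hab⟩
      exact (hW.pos α h1).le.trans (hW.le α h1)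
    set B : ℝ := A * (1 + l i) ^ 2 with hB
    have hB0 : 0 ≤ B := mul_nonneg hA (sq_nonneg _)
    have hFb : ∀ j, ∀ x ∈ Icc α β, ‖F j x‖ ≤
        M * B * (P * A * (1 + l j) ^ 2 * Real.exp (-(l j * t))) := by
      intro j x hx
      have h1 : |m x| ≤ M := by
        rw [abs_of_pos (hW.pos x (hsub hx))]
        exact hW.le x (hsub hx)
      have h2 := (hbd j x hx).1
      have h3 : |φ i x| ≤ B := hS.fbd i x hx
      have h4 : 0 ≤ P * A * (1 + l j) ^ 2 * Real.exp (-(l j * t)) := (abs_nonneg _).trans h2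
      change |m x * (co m α β l e f j * Real.exp (-(l j * t)) * φ j x * φ i x)| ≤ _
      rw [abs_mul, abs_mul]
      calc |m x| * (|co m α β l e f j * Real.exp (-(l j * t)) * φ j x| * |φ i x|)
          ≤ M * ((P * A * (1 + l j) ^ 2 * Real.exp (-(l j * t))) * B) :=
            mul_le_mul h1 (mul_le_mul h2 h3 (abs_nonneg _) h4)
              (mul_nonneg (abs_nonneg _) (abs_nonneg _)) hM0
        _ = _ := by ring
    have hFs : Summable fun j => ∫ x in Icc α β, ‖F j x‖ := by
      refine Summable.of_nonneg_of_le (fun j => integral_nonneg fun x => norm_nonneg _)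
        (fun j => ?_) (hsumu.mul_left (M * B * (β - α)))
      have h1 : ∫ x in Icc α β, ‖F j x‖ ≤
          ∫ x in Icc α β, M * B * (P * A * (1 + l j) ^ 2 * Real.exp (-(l j * t))) :=
        setIntegral_mono_on (hFi j).norm (integrableOn_const (by simp)) measurableSet_Icc (hFb j)
      refine h1.trans (le_of_eq ?_)
      rw [setIntegral_const, Real.volume_real_Icc_of_le hab, smul_eq_mul]
      ring
    have hsumF := hasSum_integral_of_summable_integral_norm hFi hFs
    have hval : ∀ j, ∫ x in Icc α β, F j x =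
        if j = i then co m α β l e f i * Real.exp (-(l i * t)) else 0 := by
      intro j
      have h1 : ∀ x, F j x = co m α β l e f j * Real.exp (-(l j * t)) *
          (m x * (φ j x * φ i x)) := fun x => by
        change m x * (co m α β l e f j * Real.exp (-(l j * t)) * φ j x * φ i x) = _
        ring
      simp_rw [h1]
      rw [integral_const_mul]
      split_ifs with hji
      · subst hji
        have h2 := hS.norm j
        have h3 : ∀ x, m x * (φ j x * φ j x) = m x * (e j * Vz m α β (-l j) x) ^ 2 := fun x => by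
          change m x * ((e j * Vz m α β (-l j) x) * (e j * Vz m α β (-l j) x)) = _
          ring
        simp_rw [h3]
        rw [h2, mul_one]
      · have h2 := hS.orth j i hji
        have h3 : (∫ x in Icc α β, m x * (φ j x * φ i x)) = 0 := h2
        rw [h3, mul_zero]
    have hval2 : HasSum (fun j => ∫ x in Icc α β, F j x)
        (co m α β l e f i * Real.exp (-(l i * t))) := by
      simp_rw [hval]
      exact hasSum_ite_eq i _
    have hfin := hsumF.unique hval2
    rw [← hfin]
    unfold co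
    refine integral_congr_ae (Eventually.of_forall fun x => ?_)
    change m x * (VF m α β l e f t x * φ i x) = ∑' j, F j x
    unfold VF
    change m x * ((∑' j, co m α β l e f j * Real.exp (-(l j * t)) * φ j x) * φ i x) =
      ∑' j, m x * (co m α β l e f j * Real.exp (-(l j * t)) * φ j x * φ i x)
    rw [← tsum_mul_right, ← tsum_mul_left]

end Pool.Agent.Q149.CC.Cvg
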