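import Pool.Agent.Q62.CC.Stm

/-!
# Project CC, job STP: assembly of the flows between coaxial cylinders
-/

set_option autoImplicit false
set_option linter.all false

open Set Filter Topology MeasureTheory
open scoped ENNReal ContDiff

namespace Pool.Agent.Q149.CC.Stp

open Pool.Agent.Q62.CC
open Pool.Agent.Q61.NC (Sp pd StopsIn)

theorem cut_open {d : ℕ} (j k : Fin d) : IsOpen (cut j k) := by
  have h1 : Continuous fun x : Sp d => x j := by fun_prop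
  have h2 : Continuous fun x : Sp d => x k := by fun_prop
  have h3 : cut j k = {x : Sp d | 0 < x j} ∪ {x : Sp d | x k ≠ 0} := rfl
  rw [h3]
  exact (isOpen_lt continuous_const h1).union (isOpen_ne_fun h2 continuous_const)

/-- the derivative in the space variable of a smooth function is continuous in both variables -/
theorem dcont {F F1 : ℝ → ℝ → ℝ} {N₀ N₁ : ℝ}
    (hs : ContDiffOn ℝ ∞ (fun z : ℝ × ℝ => F z.1 z.2) (Ioi 0 ×ˢ Ioo N₀ N₁))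
    (hd : ∀ t s, 0 < t → s ∈ Ioo N₀ N₁ → HasDerivAt (fun y => F t y) (F1 t s) s) :
    ContinuousOn (fun z : ℝ × ℝ => F1 z.1 z.2) (Ioi 0 ×ˢ Ioo N₀ N₁) := by
  have ho : IsOpen ((Ioi (0 : ℝ)) ×ˢ Ioo N₀ N₁) := isOpen_Ioi.prod isOpen_Ioo
  have h1 : ContinuousOn (fderiv ℝ fun z : ℝ × ℝ => F z.1 z.2) (Ioi 0 ×ˢ Ioo N₀ N₁) :=
    hs.continuousOn_fderiv_of_isOpen ho (by simp)
  have h2 : ContinuousOn (fun z : ℝ × ℝ => (fderiv ℝ (fun z : ℝ × ℝ => F z.1 z.2) z) (0, 1))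
      (Ioi 0 ×ˢ Ioo N₀ N₁) := h1.clm_apply continuousOn_const
  refine h2.congr fun z hz => ?_
  have h3 : DifferentiableAt ℝ (fun z : ℝ × ℝ => F z.1 z.2) z :=
    (hs.differentiableOn (by simp)).differentiableAt (ho.mem_nhds hz)
  have h4 : HasDerivAt (fun y : ℝ => (z.1, y)) ((0 : ℝ), (1 : ℝ)) z.2 :=
    (hasDerivAt_const z.2 z.1).prodMk (hasDerivAt_id z.2)
  have h5 : HasDerivAt (fun y : ℝ => F z.1 y)
      ((fderiv ℝ (fun z : ℝ × ℝ => F z.1 z.2) z) (0, 1)) z.2 := by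
    have h6 : HasFDerivAt (fun z : ℝ × ℝ => F z.1 z.2)
      (fderiv ℝ (fun z : ℝ × ℝ => F z.1 z.2) z) ((fun y : ℝ => (z.1, y)) z.2) := h3.hasFDerivAt
    exact h6.comp_hasDerivAt z.2 h4
  exact (hd z.1 z.2 hz.1 hz.2).unique h5

theorem slice {F : ℝ → ℝ → ℝ} {N₀ N₁ a' b' : ℝ}
    (hF : ContinuousOn (fun z : ℝ × ℝ => F z.1 z.2) (Ioi 0 ×ˢ Ioo N₀ N₁))
    (hI : Icc a' b' ⊆ Ioo N₀ N₁) {t : ℝ} (ht : 0 < t) :
    AEMeasurable (fun s => F t s) (volume.restrict (Icc a' b')) := by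
  have h1 : ContinuousOn (fun s => F t s) (Icc a' b') := by
    have h2 : ContinuousOn (fun s : ℝ => (t, s)) (Icc a' b') := by fun_prop
    exact hF.comp h2 fun s hs => ⟨ht, hI hs⟩
  exact h1.aemeasurable measurableSet_Icc

theorem emeas {F G : ℝ → ℝ → ℝ} {N₀ N₁ a' b' : ℝ}
    (hF : ContinuousOn (fun z : ℝ × ℝ => F z.1 z.2) (Ioi 0 ×ˢ Ioo N₀ N₁))
    (hG : ContinuousOn (fun z : ℝ × ℝ => G z.1 z.2) (Ioi 0 ×ˢ Ioo N₀ N₁))
    (hI : Icc a' b' ⊆ Ioo N₀ N₁) :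
    AEMeasurable (fun t => ∫⁻ s in Icc a' b', (‖F t s‖ₑ ^ 2 + ‖G t s‖ₑ ^ 2))
      (volume.restrict (Ioi 0)) := by
  have hsub : Ioi (0 : ℝ) ×ˢ Icc a' b' ⊆ Ioi 0 ×ˢ Ioo N₀ N₁ := prod_mono le_rfl hI
  have hm : MeasurableSet (Ioi (0 : ℝ) ×ˢ Icc a' b') := measurableSet_Ioi.prod measurableSet_Icc
  have h1 : AEMeasurable (fun z : ℝ × ℝ => F z.1 z.2)
      ((volume : Measure (ℝ × ℝ)).restrict (Ioi 0 ×ˢ Icc a' b')) :=
    (hF.mono hsub).aemeasurable hm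
  have h2 : AEMeasurable (fun z : ℝ × ℝ => G z.1 z.2)
      ((volume : Measure (ℝ × ℝ)).restrict (Ioi 0 ×ˢ Icc a' b')) :=
    (hG.mono hsub).aemeasurable hm
  have h3 : AEMeasurable (fun z : ℝ × ℝ => ‖F z.1 z.2‖ₑ ^ 2 + ‖G z.1 z.2‖ₑ ^ 2)
      ((volume.restrict (Ioi (0 : ℝ))).prod (volume.restrict (Icc a' b'))) := by
    rw [Measure.prod_restrict, ← Measure.volume_eq_prod]
    exact (h1.enorm.pow_const 2).add (h2.enorm.pow_const 2)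
  exact h3.lintegral_prod_right'

theorem stops (hp3 : S_MOM) (hp4 : S_SMO) (hp5 : S_GRB) (hp6 : S_CVL) (hp7 : S_SHL)
    (hp8 : S_SQM) {d : ℕ} {j k : Fin d} {a b T : ℝ} (hjk : j ≠ k) (ha : 0 < a) (hab : a < b)
    {h : Fin d → ℝ → ℝ} (hh : ∀ i, MemLp (h i) 2 (volume.restrict (Icc a b)))
    {f : ℝ → ℝ} (hf : MemLp f 2 (volume.restrict (Icc a b)))
    {Ω Ωt Ω1 Ω2 : ℝ → ℝ → ℝ} {q : ℝ → ℝ} (hR : Rot (a ^ 2 / 4) (4 * b ^ 2) Ω Ωt Ω1 Ω2 q)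
    (hRw : ∀ t, 0 < t → Ω t (a ^ 2) = 0 ∧ Ω t (b ^ 2) = 0)
    (hRz : ∀ t, T ≤ t → q t = 0 ∧ ∀ s, Ω t s = 0)
    (hRl : Tendsto (fun t : ℝ => ∫⁻ s in Icc (a ^ 2) (b ^ 2), ‖√s * Ω t s - f (√s)‖ₑ ^ 2)
      (𝓝[>] 0) (𝓝 0))
    (hRe : ∫⁻ t in Ioi (0 : ℝ), ∫⁻ s in Icc (a ^ 2) (b ^ 2), (‖Ω t s‖ₑ ^ 2 + ‖Ω1 t s‖ₑ ^ 2) < ⊤)
    {A At A1 A2 : Fin d → ℝ → ℝ → ℝ} {Q : Fin d → ℝ → ℝ}
    (hA : ∀ i, Axi (a ^ 2 / 4) (4 * b ^ 2) (A i) (At i) (A1 i) (A2 i) (Q i))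
    (hAw : ∀ i, ∀ t, 0 < t → A i t (a ^ 2) = 0 ∧ A i t (b ^ 2) = 0)
    (hAz : ∀ i, ∀ t, T ≤ t → Q i t = 0 ∧ ∀ s, A i t s = 0)
    (hAl : ∀ i, Tendsto (fun t : ℝ => ∫⁻ s in Icc (a ^ 2) (b ^ 2), ‖A i t s - h i (√s)‖ₑ ^ 2)
      (𝓝[>] 0) (𝓝 0))
    (hAe : ∀ i, ∫⁻ t in Ioi (0 : ℝ), ∫⁻ s in Icc (a ^ 2) (b ^ 2),
      (‖A i t s‖ₑ ^ 2 + ‖A1 i t s‖ₑ ^ 2) < ⊤)
    {G N : Set (Sp d)} (hG : G ⊆ shell j k a b) (hN : IsOpen N) (hGN : G ⊆ N)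
    (hNN : N ⊆ {x : Sp d | N2 j k x ∈ Ioo (a ^ 2 / 4) (4 * b ^ 2)})
    (hpre : ContDiffOn ℝ ∞ (fun z : ℝ × Sp d => pre j k (a ^ 2) Ω q Q z.1 z.2) (Ioi 0 ×ˢ N))
    (hcq : ∀ t, 0 < t → ∀ x ∈ G, x ∈ cut j k ∨ q t = 0) :
    StopsIn G (cylinders j k a b) T (dat j k f h) (vel j k Ω A) (pre j k (a ^ 2) Ω q Q) := by
  have ha2 : 0 < a ^ 2 := by positivity
  have hb : 0 < b := ha.trans hab
  have hab2 : a ^ 2 < b ^ 2 := by nlinarith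
  have hs0 : a ^ 2 ∈ Ioo (a ^ 2 / 4) (4 * b ^ 2) := ⟨by linarith, by nlinarith⟩
  have hN0 : 0 < a ^ 2 / 4 := by positivity
  have hI : Icc (a ^ 2) (b ^ 2) ⊆ Ioo (a ^ 2 / 4) (4 * b ^ 2) := fun s hs =>
    ⟨by linarith [hs.1], by nlinarith [hs.2]⟩
  have hsm := hp4 d j k (a ^ 2 / 4) (4 * b ^ 2) (a ^ 2) Ω Ωt Ω1 Ω2 q A At A1 A2 Q hjk hN0 hs0 hR hA
  have hΩc : ContinuousOn (fun z : ℝ × ℝ => Ω z.1 z.2) (Ioi 0 ×ˢ Ioo (a ^ 2 / 4) (4 * b ^ 2)) :=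
    hR.smooth.continuousOn
  have hΩ1c := dcont hR.smooth hR.dx
  have hAc : ∀ i, ContinuousOn (fun z : ℝ × ℝ => A i z.1 z.2)
      (Ioi 0 ×ˢ Ioo (a ^ 2 / 4) (4 * b ^ 2)) := fun i => (hA i).smooth.continuousOn
  have hA1c := fun i => dcont (hA i).smooth (hA i).dx
  have hdiff : ∀ (t : ℝ) (x : Sp d), (∀ i, A i t (N2 j k x) = 0) → Ω t (N2 j k x) = 0 →
      vel j k Ω A t x = 0 := by
    intro t x h1 h2
    ext i
    change (if i = j then -(x k * Ω t (N2 j k x)) else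
      if i = k then x j * Ω t (N2 j k x) else A i t (N2 j k x)) = 0
    rw [h1 i, h2]
    split_ifs <;> simp
  have hbox : ∀ O : Set (Sp d), O ⊆ G → Bornology.IsBounded O →
      ∃ R : ℝ, O ⊆ {x : Sp d | x ∈ shell j k a b ∧ ∀ i, |x i| ≤ R} := by
    intro O hO hOb
    obtain ⟨R, hR'⟩ := hOb.exists_norm_le
    refine ⟨R, fun x hx => ⟨hG (hO hx), fun i => ?_⟩⟩
    exact (PiLp.norm_apply_le x i).trans (hR' x hx)
  have hsqf := hp8 a b ha hab f hf.1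
  have hsqh : ∀ i, AEMeasurable (fun s => h i (√s)) (volume.restrict (Icc (a ^ 2) (b ^ 2))) :=
    fun i => hp8 a b ha hab (h i) (hh i).1
  refine ⟨⟨N, hN, hGN, hsm.2.1.mono (prod_mono le_rfl hNN), hpre⟩, ?_, ?_, ?_, ?_, ?_, ?_⟩
  · intro t ht x hx
    exact (hp3 d j k (a ^ 2 / 4) (4 * b ^ 2) (a ^ 2) Ω Ωt Ω1 Ω2 q A At A1 A2 Q hjk hN0 hs0 hR hA
      t x ht (hNN (hGN hx)) (hcq t ht x hx)).1
  · intro t ht x hx
    exact (hp3 d j k (a ^ 2 / 4) (4 * b ^ 2) (a ^ 2) Ω Ωt Ω1 Ω2 q A At A1 A2 Q hjk hN0 hs0 hR hA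
      t x ht (hNN (hGN hx)) (hcq t ht x hx)).2
  · intro t ht x hx
    rcases hx with hx | hx
    · exact hdiff t x (fun i => by rw [hx]; exact (hAw i t ht).1) (by rw [hx]; exact (hRw t ht).1)
    · exact hdiff t x (fun i => by rw [hx]; exact (hAw i t ht).2) (by rw [hx]; exact (hRw t ht).2)
  · intro t ht x hx
    exact hdiff t x (fun i => (hAz i t ht).2 _) ((hRz t ht).2 _)
  · intro O hO hOm hOb
    obtain ⟨R, hOR⟩ := hbox O hO hOb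
    obtain ⟨C, hC, hCs⟩ := hp7 d j k a b R hjk ha hab
    have hup : Tendsto (fun t : ℝ => C * ((∫⁻ s in Icc (a ^ 2) (b ^ 2),
        ‖√s * Ω t s - f (√s)‖ₑ ^ 2) + ∑ i, ∫⁻ s in Icc (a ^ 2) (b ^ 2), ‖A i t s - h i (√s)‖ₑ ^ 2))
        (𝓝[>] 0) (𝓝 0) := by
      have h1 : Tendsto (fun t : ℝ => (∫⁻ s in Icc (a ^ 2) (b ^ 2),
        ‖√s * Ω t s - f (√s)‖ₑ ^ 2) + ∑ i, ∫⁻ s in Icc (a ^ 2) (b ^ 2), ‖A i t s - h i (√s)‖ₑ ^ 2)
        (𝓝[>] 0) (𝓝 (0 + ∑ i : Fin d, 0)) :=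
        hRl.add (tendsto_finset_sum _ fun i _ => hAl i)
      have h2 := ENNReal.Tendsto.const_mul (a := C) h1 (Or.inr hC)
      simpa using h2
    refine tendsto_of_tendsto_of_tendsto_of_le_of_le' tendsto_const_nhds hup
      (Eventually.of_forall fun t => bot_le) ?_
    filter_upwards [self_mem_nhdsWithin] with t ht
    have ht : 0 < t := ht
    have hm0 : AEMeasurable (fun s => ‖√s * Ω t s - f (√s)‖ₑ ^ 2)
        (volume.restrict (Icc (a ^ 2) (b ^ 2))) := by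
      have h1 := slice hΩc hI ht
      have h2 : AEMeasurable (fun s : ℝ => √s) (volume.restrict (Icc (a ^ 2) (b ^ 2))) :=
        Real.continuous_sqrt.measurable.aemeasurable
      exact ((h2.mul h1).sub hsqf).enorm.pow_const 2
    have hmi : ∀ i, AEMeasurable (fun s => ‖A i t s - h i (√s)‖ₑ ^ 2)
        (volume.restrict (Icc (a ^ 2) (b ^ 2))) := fun i =>
      ((slice (hAc i) hI ht).sub (hsqh i)).enorm.pow_const 2
    let Gt : ℝ → ℝ≥0∞ := fun s => ‖√s * Ω t s - f (√s)‖ₑ ^ 2 + ∑ i, ‖A i t s - h i (√s)‖ₑ ^ 2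
    have hms : AEMeasurable (fun s => ∑ i, ‖A i t s - h i (√s)‖ₑ ^ 2)
        (volume.restrict (Icc (a ^ 2) (b ^ 2))) :=
      Finset.aemeasurable_fun_sum _ fun i _ => hmi i
    have hmG : AEMeasurable Gt (volume.restrict (Icc (a ^ 2) (b ^ 2))) := hm0.add hms
    calc ∫⁻ x in O, ‖vel j k Ω A t x - dat j k f h x‖ₑ ^ 2
        ≤ ∫⁻ x in O, Gt (N2 j k x) := by
          refine setLIntegral_mono' hOm fun x hx => ?_
          have h1 : 0 < N2 j k x := lt_of_lt_of_le ha2 (hG (hO hx)).1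
          exact hp6 d j k Ω A f h hjk t x h1
      _ ≤ ∫⁻ x in {x : Sp d | x ∈ shell j k a b ∧ ∀ i, |x i| ≤ R}, Gt (N2 j k x) :=
          lintegral_mono_set hOR
      _ ≤ C * ∫⁻ s in Icc (a ^ 2) (b ^ 2), Gt s := hCs Gt hmG
      _ = _ := by
          congr 1
          change ∫⁻ s in Icc (a ^ 2) (b ^ 2), (‖√s * Ω t s - f (√s)‖ₑ ^ 2 +
            ∑ i, ‖A i t s - h i (√s)‖ₑ ^ 2) = _
          rw [lintegral_add_left' hm0, lintegral_finsetSum' _ fun i _ => hmi i]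
  · intro O hO hOm hOb
    obtain ⟨R, hOR⟩ := hbox O hO hOb
    obtain ⟨C, hC, hCs⟩ := hp7 d j k a b R hjk ha hab
    obtain ⟨C2, hC2, hgr⟩ := hp5 d j k a b hjk ha hab
    let E0 : ℝ → ℝ≥0∞ := fun t => ∫⁻ s in Icc (a ^ 2) (b ^ 2), (‖Ω t s‖ₑ ^ 2 + ‖Ω1 t s‖ₑ ^ 2)
    let E : Fin d → ℝ → ℝ≥0∞ := fun i t =>
      ∫⁻ s in Icc (a ^ 2) (b ^ 2), (‖A i t s‖ₑ ^ 2 + ‖A1 i t s‖ₑ ^ 2)
    have hE0m : AEMeasurable E0 (volume.restrict (Ioi 0)) := emeas hΩc hΩ1c hI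
    have hEm : ∀ i, AEMeasurable (E i) (volume.restrict (Ioi 0)) := fun i =>
      emeas (hAc i) (hA1c i) hI
    have hpt : ∀ t : ℝ, t ∈ Ioi (0 : ℝ) →
        ∫⁻ x in O, ∑ i, ∑ n, ‖pd i (fun y => vel j k Ω A t y n) x‖ₑ ^ 2 ≤
          C2 * (C * (E0 t + ∑ i, E i t)) := by
      intro t ht
      have ht : 0 < t := ht
      have hm0 : AEMeasurable (fun s => ‖Ω t s‖ₑ ^ 2 + ‖Ω1 t s‖ₑ ^ 2)
          (volume.restrict (Icc (a ^ 2) (b ^ 2))) :=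
        ((slice hΩc hI ht).enorm.pow_const 2).add ((slice hΩ1c hI ht).enorm.pow_const 2)
      have hmi : ∀ i, AEMeasurable (fun s => ‖A1 i t s‖ₑ ^ 2)
          (volume.restrict (Icc (a ^ 2) (b ^ 2))) := fun i =>
        (slice (hA1c i) hI ht).enorm.pow_const 2
      let Gt : ℝ → ℝ≥0∞ := fun s => ‖Ω t s‖ₑ ^ 2 + ‖Ω1 t s‖ₑ ^ 2 + ∑ i, ‖A1 i t s‖ₑ ^ 2
      have hms : AEMeasurable (fun s => ∑ i, ‖A1 i t s‖ₑ ^ 2)
          (volume.restrict (Icc (a ^ 2) (b ^ 2))) :=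
        Finset.aemeasurable_fun_sum _ fun i _ => hmi i
      have hmG : AEMeasurable Gt (volume.restrict (Icc (a ^ 2) (b ^ 2))) := hm0.add hms
      calc ∫⁻ x in O, ∑ i, ∑ n, ‖pd i (fun y => vel j k Ω A t y n) x‖ₑ ^ 2
          ≤ ∫⁻ x in O, C2 * Gt (N2 j k x) := by
            refine setLIntegral_mono' hOm fun x hx => ?_
            exact hgr Ω Ωt Ω1 Ω2 q A At A1 A2 Q hR hA t x ht (hG (hO hx))
        _ = C2 * ∫⁻ x in O, Gt (N2 j k x) := lintegral_const_mul' _ _ hC2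
        _ ≤ C2 * (C * ∫⁻ s in Icc (a ^ 2) (b ^ 2), Gt s) :=
            mul_le_mul_right ((lintegral_mono_set hOR).trans (hCs Gt hmG)) _
        _ ≤ C2 * (C * (E0 t + ∑ i, E i t)) := by
            refine mul_le_mul_right (mul_le_mul_right ?_ _) _
            have h1 : ∫⁻ s in Icc (a ^ 2) (b ^ 2), Gt s =
                E0 t + ∑ i, ∫⁻ s in Icc (a ^ 2) (b ^ 2), ‖A1 i t s‖ₑ ^ 2 := by
              change ∫⁻ s in Icc (a ^ 2) (b ^ 2), (‖Ω t s‖ₑ ^ 2 + ‖Ω1 t s‖ₑ ^ 2 +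
                ∑ i, ‖A1 i t s‖ₑ ^ 2) = _
              rw [lintegral_add_left' hm0, lintegral_finsetSum' _ fun i _ => hmi i]
            rw [h1]
            refine add_le_add_right (Finset.sum_le_sum fun i _ => ?_) _
            exact lintegral_mono fun s => le_add_self
    calc ∫⁻ t in Ioi (0 : ℝ), ∫⁻ x in O, ∑ i, ∑ n, ‖pd i (fun y => vel j k Ω A t y n) x‖ₑ ^ 2
        ≤ ∫⁻ t in Ioi (0 : ℝ), C2 * (C * (E0 t + ∑ i, E i t)) :=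
          setLIntegral_mono' measurableSet_Ioi hpt
      _ = C2 * (C * ((∫⁻ t in Ioi (0 : ℝ), E0 t) + ∑ i, ∫⁻ t in Ioi (0 : ℝ), E i t)) := by
          rw [lintegral_const_mul' _ _ hC2, lintegral_const_mul' _ _ hC,
            lintegral_add_left' hE0m, lintegral_finsetSum' _ fun i _ => hEm i]
      _ < ⊤ := by
          refine ENNReal.mul_lt_top hC2.lt_top (ENNReal.mul_lt_top hC.lt_top ?_)
          exact ENNReal.add_lt_top.2 ⟨hRe, ENNReal.sum_lt_top.2 fun i _ => hAe i⟩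

theorem t_STP (hp1 : S_RTF) (hp2 : S_AXF) (hp3 : S_MOM) (hp4 : S_SMO) (hp5 : S_GRB)
    (hp6 : S_CVL) (hp7 : S_SHL) (hp8 : S_SQM) : S_STP := by
  intro d j k a b T hjk ha hab hT h hh
  have ha2 : 0 < a ^ 2 := by positivity
  have hb : 0 < b := ha.trans hab
  have hN0 : 0 < a ^ 2 / 4 := by positivity
  have hs0 : a ^ 2 ∈ Ioo (a ^ 2 / 4) (4 * b ^ 2) := ⟨by linarith, by nlinarith⟩
  choose A At A1 A2 Q hA hAw hAz hAl hAe using fun i => hp2 a b T ha hab hT (h i) (hh i)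
  have hshell : shell j k a b ⊆ {x : Sp d | N2 j k x ∈ Ioo (a ^ 2 / 4) (4 * b ^ 2)} := by
    intro x hx
    have h1 : a ^ 2 ≤ N2 j k x := hx.1
    have h2 : N2 j k x ≤ b ^ 2 := hx.2
    exact ⟨by linarith, by nlinarith⟩
  constructor
  · intro f hf
    obtain ⟨Ω, Ωt, Ω1, Ω2, q, hR, hRw, hRz, hRl, hRe⟩ := hp1 a b T ha hab hT f hf
    have hsm := hp4 d j k (a ^ 2 / 4) (4 * b ^ 2) (a ^ 2) Ω Ωt Ω1 Ω2 q A At A1 A2 Q hjk hN0 hs0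
      hR hA
    refine ⟨vel j k Ω A, pre j k (a ^ 2) Ω q Q, ?_⟩
    exact stops hp3 hp4 hp5 hp6 hp7 hp8 hjk ha hab hh hf hR hRw hRz hRl hRe hA hAw hAz hAl hAe
      (G := shell j k a b ∩ cut j k)
      (N := {x : Sp d | N2 j k x ∈ Ioo (a ^ 2 / 4) (4 * b ^ 2)} ∩ cut j k)
      inter_subset_left (hsm.1.inter (cut_open j k)) (inter_subset_inter_left _ hshell)
      inter_subset_left hsm.2.2.1 (fun t _ x hx => Or.inl hx.2)
  · have hR : Rot (a ^ 2 / 4) (4 * b ^ 2) (fun _ _ => 0) (fun _ _ => 0) (fun _ _ => 0)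
        (fun _ _ => 0) (fun _ => 0) :=
      ⟨contDiffOn_const, contDiffOn_const, fun t s _ _ => hasDerivAt_const _ _,
        fun t s _ _ => hasDerivAt_const _ _, fun t s _ _ => hasDerivAt_const _ _,
        fun t s _ _ => by simp⟩
    have hsm := hp4 d j k (a ^ 2 / 4) (4 * b ^ 2) (a ^ 2) _ _ _ _ _ A At A1 A2 Q hjk hN0 hs0
      hR hA
    refine ⟨vel j k (fun _ _ => 0) A, pre j k (a ^ 2) (fun _ _ => 0) (fun _ => 0) Q, ?_⟩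
    have hf : MemLp (fun _ : ℝ => (0 : ℝ)) 2 (volume.restrict (Icc a b)) := MemLp.zero'
    exact stops hp3 hp4 hp5 hp6 hp7 hp8 hjk ha hab hh hf hR (fun t _ => ⟨rfl, rfl⟩)
      (fun t _ => ⟨rfl, fun s => rfl⟩) (by simp) (by simp) hA hAw hAz hAl hAe
      (G := shell j k a b) (N := {x : Sp d | N2 j k x ∈ Ioo (a ^ 2 / 4) (4 * b ^ 2)})
      subset_rfl hsm.1 hshell subset_rfl (hsm.2.2.2 fun _ _ => rfl) (fun t _ x _ => Or.inr rfl)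

end Pool.Agent.Q149.CC.Stp
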